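import Pool.Agent.H2.PD6

open Pool.Agent.Lead.POG Pool.Agent.H2.Pdim

namespace Pool.Agent.Results.MP_48904d_ag.NotComb

theorem result :
    ∃ a b : Fin 11 → Fin (4 + 1) → ℂ, IsArr a ∧ IsArr b ∧
      (⨅ j, hyp (a j)) = ⊥ ∧ (⨅ j, hyp (b j)) = ⊥ ∧
      Nonempty (lattice a ≃o lattice b) ∧ StablyFree a ∧ ¬ StablyFree b := by
  refine ⟨arr ℂ 2, arr ℂ (-1), isArr_one, isArr_two, essential 2, essential (-1), lat_iso, ?_, ?_⟩
  · exact (stably_iff _ isArr_one.1).2 (VX_pd pd_one 3 (by norm_num))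
  · exact fun h => not_V_two ((stably_iff _ isArr_two.1).1 h)

end Pool.Agent.Results.MP_48904d_ag.NotComb
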